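import Mathlib
import Pool.Agent.helper18.DivMain

set_option autoImplicit false

/-!
Chain-valued separating systems: many levels of a nested Reed-Solomon code are handled by one
family of chains, the active elements being sorted by level.
-/

namespace Pool.Agent.helper63.DD

open Finset Real

/-- The polynomial whose coefficients are the digits of `q` in base `l`. -/
noncomputable def digPoly (l q : ℕ) : Polynomial (ZMod l) :=
  ∑ i ∈ range (q + 1), Polynomial.monomial i (((q / l ^ i : ℕ) : ZMod l))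

lemma digPoly_coeff {l : ℕ} (hl : 2 ≤ l) (q i : ℕ) :
    (digPoly l q).coeff i = ((q / l ^ i : ℕ) : ZMod l) := by
  unfold digPoly
  rw [Polynomial.finsetSum_coeff]
  simp only [Polynomial.coeff_monomial]
  rw [sum_ite_eq' (range (q + 1)) i (fun j => ((q / l ^ j : ℕ) : ZMod l))]
  split_ifs with h
  · rfl
  · rw [mem_range, not_lt] at h
    have h1 : q < l ^ i := lt_of_lt_of_le (by omega : q < i) (Nat.lt_pow_self (by omega)).le
    rw [Nat.div_eq_of_lt h1]
    simp

lemma dig_inj {l : ℕ} (hl : 2 ≤ l) (n : ℕ) : ∀ a b : ℕ, a < l ^ n → b < l ^ n →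
    (∀ i, (((a / l ^ i : ℕ) : ZMod l)) = ((b / l ^ i : ℕ) : ZMod l)) → a = b := by
  induction n with
  | zero =>
    intro a b ha hb _
    simp at ha hb
    omega
  | succ n ih =>
    intro a b ha hb h
    have h0 := h 0
    simp only [pow_zero, Nat.div_one] at h0
    rw [ZMod.natCast_eq_natCast_iff'] at h0
    have h1 : a / l = b / l := by
      apply ih
      · rw [Nat.div_lt_iff_lt_mul (by omega)]
        calc a < l ^ (n + 1) := ha
          _ = l ^ n * l := pow_succ _ _
      · rw [Nat.div_lt_iff_lt_mul (by omega)]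
        calc b < l ^ (n + 1) := hb
          _ = l ^ n * l := pow_succ _ _
      · intro i
        rw [Nat.div_div_eq_div_mul, Nat.div_div_eq_div_mul, ← pow_succ']
        exact h (i + 1)
    rw [← Nat.div_add_mod a l, ← Nat.div_add_mod b l, h0, h1]

/-- Two distinct digit polynomials of degree less than `D` agree in fewer than `D` points. -/
lemma agree_card {l : ℕ} [Fact l.Prime] {D a b : ℕ} (ha : a < l ^ D) (hb : b < l ^ D)
    (hab : a ≠ b) :
    (univ.filter (fun x : ZMod l => (digPoly l a).eval x = (digPoly l b).eval x)).card < D := by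
  classical
  have hl : 2 ≤ l := (Fact.out : l.Prime).two_le
  set f : Polynomial (ZMod l) := digPoly l a - digPoly l b with hf
  have hf0 : f ≠ 0 := by
    intro h
    apply hab
    apply dig_inj hl D a b ha hb
    intro i
    have h2 : digPoly l a = digPoly l b := sub_eq_zero.mp h
    rw [← digPoly_coeff hl, ← digPoly_coeff hl, h2]
  have hz : ∀ c < l ^ D, ∀ m, D ≤ m → (digPoly l c).coeff m = 0 := by
    intro c hc m hm
    rw [digPoly_coeff hl, Nat.div_eq_of_lt (lt_of_lt_of_le hc (Nat.pow_le_pow_right (by omega) hm))]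
    simp
  have hdeg : f.degree < D := by
    rw [Polynomial.degree_lt_iff_coeff_zero]
    intro m hm
    rw [hf, Polynomial.coeff_sub, hz a ha m hm, hz b hb m hm, sub_zero]
  have hnat : f.natDegree < D := (Polynomial.natDegree_lt_iff_degree_lt hf0).mpr hdeg
  have hsub : (univ.filter (fun x : ZMod l => (digPoly l a).eval x = (digPoly l b).eval x))
      ⊆ f.roots.toFinset := by
    intro x hx
    simp only [mem_filter, mem_univ, true_and] at hx
    rw [Multiset.mem_toFinset, Polynomial.mem_roots hf0]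
    simp [hf, Polynomial.IsRoot, hx]
  calc _ ≤ f.roots.toFinset.card := card_le_card hsub
    _ ≤ Multiset.card f.roots := Multiset.toFinset_card_le _
    _ ≤ f.natDegree := Polynomial.card_roots' f
    _ < D := hnat

/-- `CSep t P N d`: there are at most `d` coordinates and heights `h q v < t` such that for every
prime `q ≤ N` with `P q` and every `1 ≤ b ≤ N` not divisible by `q`, in some coordinate `v` the
height of `q` is positive and larger than the heights of all prime factors of `b` with `P`. -/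
def CSep (t : ℕ) (P : ℕ → Prop) (N d : ℕ) : Prop :=
  ∃ (V : Type) (_ : Fintype V) (h : ℕ → V → ℕ), Fintype.card V ≤ d ∧ (∀ q v, h q v < t) ∧
    ∀ q b, P q → q.Prime → q ≤ N → b ≠ 0 → b ≤ N → ¬ q ∣ b →
      ∃ v, 0 < h q v ∧ ∀ q' ∈ b.primeFactors, P q' → h q' v < h q v

lemma CSep.of_sep {t : ℕ} (ht : 2 ≤ t) {P : ℕ → Prop} {N d : ℕ}
    (hs : Pool.Agent.helper18.Sep P N d) : CSep t P N d := by
  classical
  obtain ⟨V, iV, S, h1, h2⟩ := hs
  refine ⟨V, iV, fun q v => if v ∈ S q then 1 else 0, h1, ?_, ?_⟩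
  · intro q v
    dsimp only
    split_ifs <;> omega
  · intro q b hq hp hqN hb hbN hqb
    obtain ⟨v, hv, hv'⟩ := h2 q b hq hp hqN hb hbN hqb
    refine ⟨v, by simp [hv], ?_⟩
    intro q' hq' hP'
    simp [hv, hv' q' hq' hP']

lemma CSep.mono {t : ℕ} {P : ℕ → Prop} {N d e : ℕ} (hs : CSep t P N d) (hde : d ≤ e) :
    CSep t P N e := by
  obtain ⟨V, i1, S, h1, h2⟩ := hs
  exact ⟨V, i1, S, h1.trans hde, h2⟩

lemma CSep.imp {t : ℕ} {P Q : ℕ → Prop} {N d : ℕ} (hs : CSep t P N d)
    (hPQ : ∀ q, q.Prime → q ≤ N → (Q q ↔ P q)) : CSep t Q N d := by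
  obtain ⟨V, i1, S, h1, h0, h2⟩ := hs
  refine ⟨V, i1, S, h1, h0, ?_⟩
  intro q b hq hp hqN hb hbN hqb
  obtain ⟨v, hv, hv'⟩ := h2 q b ((hPQ q hp hqN).mp hq) hp hqN hb hbN hqb
  refine ⟨v, hv, fun q' hq' hQ' => hv' q' hq' ?_⟩
  have := Nat.le_of_mem_primeFactors hq'
  exact (hPQ q' (Nat.prime_of_mem_primeFactors hq') (this.trans hbN)).mp hQ'

lemma CSep.or {t : ℕ} {P Q : ℕ → Prop} {N d e : ℕ} (hs : CSep t P N d) (hs' : CSep t Q N e) :
    CSep t (fun q => P q ∨ Q q) N (d + e) := by
  classical
  obtain ⟨V, i1, h, h1, h0, h2⟩ := hs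
  obtain ⟨V', i1', h', h1', h0', h2'⟩ := hs'
  refine ⟨V ⊕ V', inferInstance, fun q v => Sum.elim (fun x => if P q then h q x else 0)
    (fun x => if Q q then h' q x else 0) v, ?_, ?_, ?_⟩
  · rw [Fintype.card_sum]; omega
  · rintro q (v | v)
    · simp only [Sum.elim_inl]
      split_ifs
      · exact h0 q v
      · exact lt_of_le_of_lt (Nat.zero_le _) (h0 q v)
    · simp only [Sum.elim_inr]
      split_ifs
      · exact h0' q v
      · exact lt_of_le_of_lt (Nat.zero_le _) (h0' q v)
  · intro q b hq hp hqN hb hbN hqb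
    rcases hq with hq | hq
    · obtain ⟨v, hv, hv'⟩ := h2 q b hq hp hqN hb hbN hqb
      refine ⟨Sum.inl v, by simpa [hq] using hv, ?_⟩
      intro q' hq' _
      simp only [Sum.elim_inl, if_pos hq]
      split_ifs with h3
      · exact hv' q' hq' h3
      · exact hv
    · obtain ⟨v, hv, hv'⟩ := h2' q b hq hp hqN hb hbN hqb
      refine ⟨Sum.inr v, by simpa [hq] using hv, ?_⟩
      intro q' hq' _
      simp only [Sum.elim_inr, if_pos hq]
      split_ifs with h3
      · exact hv' q' hq' h3
      · exact hv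

lemma CSep.range {t : ℕ} (ht : 2 ≤ t) {P : ℕ → ℕ → Prop} {N : ℕ} {d : ℕ → ℕ} (J : ℕ)
    (h : ∀ j < J, CSep t (P j) N (d j)) :
    CSep t (fun q => ∃ j < J, P j q) N (∑ j ∈ range J, d j) := by
  induction J with
  | zero =>
    rw [sum_range_zero]
    apply CSep.of_sep ht
    apply Pool.Agent.helper18.Sep.of_empty
    rintro q ⟨j, hj, -⟩
    omega
  | succ J ih =>
    rw [sum_range_succ]
    refine ((ih (fun j hj => h j (by omega))).or (h J (by omega))).imp fun q _ _ => ?_
    constructor
    · rintro ⟨j, hj, hP⟩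
      rcases Nat.lt_succ_iff_lt_or_eq.mp hj with hj | rfl
      · exact Or.inl ⟨j, hj, hP⟩
      · exact Or.inr hP
    · rintro (⟨j, hj, hP⟩ | hP)
      · exact ⟨j, by omega, hP⟩
      · exact ⟨J, by omega, hP⟩

/-- The sum of the logarithms of some prime factors of `b` is at most `log b`. -/
lemma sum_log_le {b : ℕ} {x : ℝ} (hb : b ≠ 0) (hN : (b : ℝ) ≤ exp x) (B : Finset ℕ)
    (hB : B ⊆ b.primeFactors) : ∑ q ∈ B, Real.log q ≤ x := by
  have h3 : ∏ q ∈ B, q ≤ b :=
    le_trans (prod_le_prod_of_subset_of_one_le' hB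
      (fun q hq _ => (Nat.prime_of_mem_primeFactors hq).one_le))
      (Nat.le_of_dvd (Nat.pos_of_ne_zero hb) (Nat.prod_primeFactors_dvd b))
  rw [← Real.log_prod]
  · have h5 : ((∏ q ∈ B, q : ℕ) : ℝ) ≤ exp x := le_trans (by exact_mod_cast h3) hN
    have h6 : (0 : ℝ) < ((∏ q ∈ B, q : ℕ) : ℝ) := by
      exact_mod_cast prod_pos fun q hq => (Nat.prime_of_mem_primeFactors (hB hq)).pos
    have := Real.log_le_log h6 h5
    rw [Real.log_exp] at this
    push_cast at this
    exact this
  · intro q hq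
    exact_mod_cast (Nat.prime_of_mem_primeFactors (hB hq)).ne_zero

/-- One block of `l * l` chains of length `m + 1` handles `m` consecutive dyadic levels. -/
lemma csep_rs {t N l j0 m : ℕ} {x lam : ℝ} (hmt : m < t) (hlam : 0 < lam)
    (hN : (N : ℝ) ≤ exp x) (hl : l.Prime) (h4T : 4 * (x / lam) < l)
    (hsize : exp lam + 1 ≤ (l : ℝ) ^ 2) :
    CSep t (fun q => 2 ^ j0 * lam < Real.log q ∧ Real.log q ≤ 2 ^ (j0 + m) * lam) N (l * l) := by
  classical
  have : Fact l.Prime := ⟨hl⟩
  have hex : ∀ q : ℕ, ∃ j : ℕ, Real.log q ≤ 2 ^ j * lam := by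
    intro q
    obtain ⟨j, hj⟩ := pow_unbounded_of_one_lt (Real.log q / lam) (by norm_num : (1 : ℝ) < 2)
    refine ⟨j, ?_⟩
    rw [div_lt_iff₀ hlam] at hj
    exact hj.le
  let lev : ℕ → ℕ := fun q => Nat.find (hex q)
  have hlev1 : ∀ q : ℕ, Real.log q ≤ 2 ^ (lev q) * lam := fun q => Nat.find_spec (hex q)
  have hlev2 : ∀ q j : ℕ, j < lev q → 2 ^ j * lam < Real.log q := fun q j hj => by
    have := Nat.find_min (hex q) hj
    exact not_le.mp this
  have hlev3 : ∀ q j : ℕ, Real.log q ≤ 2 ^ j * lam → lev q ≤ j := fun q j hj => Nat.find_le hj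
  have hlev4 : ∀ q j : ℕ, 2 ^ j * lam < Real.log q → j < lev q := by
    intro q j hj
    by_contra hcon
    push Not at hcon
    have h1 : (2 : ℝ) ^ (lev q) ≤ 2 ^ j := pow_le_pow_right₀ (by norm_num) hcon
    have h2 := hlev1 q
    have h3 : (2 : ℝ) ^ (lev q) * lam ≤ 2 ^ j * lam := mul_le_mul_of_nonneg_right h1 hlam.le
    linarith
  let P : ℕ → Prop := fun q => 2 ^ j0 * lam < Real.log q ∧ Real.log q ≤ 2 ^ (j0 + m) * lam
  -- size bound
  have hval : ∀ (q s : ℕ), q.Prime → Real.log q ≤ 2 ^ s * lam → q < l ^ (2 ^ (s + 1)) := by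
    intro q s hq h1
    have hq0 : (0 : ℝ) < q := by exact_mod_cast hq.pos
    have h2 : (q : ℝ) ≤ exp (2 ^ s * lam) := by
      rw [← Real.log_le_iff_le_exp hq0]
      exact h1
    have h3 : (q : ℝ) < (l : ℝ) ^ (2 ^ (s + 1)) := by
      calc (q : ℝ) < exp (2 ^ s * lam) + 1 := by linarith
        _ = (exp lam) ^ (2 ^ s) + 1 ^ (2 ^ s) := by
            rw [← Real.exp_nat_mul]; push_cast; simp
        _ ≤ (exp lam + 1) ^ (2 ^ s) :=
            pow_add_pow_le (exp_pos _).le (by norm_num) (by positivity)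
        _ ≤ ((l : ℝ) ^ 2) ^ (2 ^ s) :=
            pow_le_pow_left₀ (by positivity) hsize _
        _ = (l : ℝ) ^ (2 ^ (s + 1)) := by
            rw [← pow_mul]; congr 1; ring
    exact_mod_cast h3
  refine ⟨ZMod l × ZMod l, inferInstance,
    fun q v => if P q ∧ (digPoly l q).eval v.1 = v.2 then lev q - j0 else 0,
    by rw [Fintype.card_prod, ZMod.card], ?_, ?_⟩
  · intro q v
    dsimp only
    split_ifs with h
    · have := hlev3 q (j0 + m) h.1.2
      omega
    · omega
  · intro q b hq hp hqN hb hbN hqb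
    by_contra hcon
    push Not at hcon
    let B : Finset ℕ := b.primeFactors.filter (fun e => P e ∧ lev q ≤ lev e)
    let agree : ℕ → Finset (ZMod l) := fun e =>
      univ.filter (fun x => (digPoly l e).eval x = (digPoly l q).eval x)
    have hq1 : j0 < lev q := hlev4 q j0 hq.1
    have hcov : (univ : Finset (ZMod l)) ⊆ B.biUnion agree := by
      intro y _
      have h1 := hcon (y, (digPoly l q).eval y) (by
        dsimp only
        rw [if_pos ⟨hq, rfl⟩]
        omega)
      obtain ⟨e, he, hPe, hle⟩ := h1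
      dsimp only at hle
      rw [if_pos (⟨hq, rfl⟩ : P q ∧ (digPoly l q).eval y = (digPoly l q).eval y)] at hle
      rw [mem_biUnion]
      by_cases hagr : P e ∧ (digPoly l e).eval y = (digPoly l q).eval y
      · rw [if_pos hagr] at hle
        refine ⟨e, ?_, ?_⟩
        · simp only [B, mem_filter]
          refine ⟨he, hagr.1, ?_⟩
          omega
        · simp only [agree, mem_filter, mem_univ, true_and]
          exact hagr.2
      · rw [if_neg hagr] at hle
        omega
    have hag : ∀ e ∈ B, ((agree e).card : ℝ) ≤ 4 / lam * Real.log e := by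
      intro e he
      simp only [B, mem_filter] at he
      obtain ⟨he1, hPe, hle⟩ := he
      have hep := Nat.prime_of_mem_primeFactors he1
      have hne : e ≠ q := by
        rintro rfl
        exact hqb (Nat.dvd_of_mem_primeFactors he1)
      have hpos : 0 < lev e := by omega
      have hv1 := hval e (lev e) hep (hlev1 e)
      have hv2 := hval q (lev e) hp ((hlev1 q).trans
        (mul_le_mul_of_nonneg_right (pow_le_pow_right₀ (by norm_num) hle) hlam.le))
      have h1 := agree_card (l := l) hv1 hv2 hne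
      have h2 : ((agree e).card : ℝ) ≤ 2 ^ (lev e + 1) := by
        exact_mod_cast h1.le
      have h3 := hlev2 e (lev e - 1) (by omega)
      have h4 : (2 : ℝ) ^ (lev e + 1) = 4 * 2 ^ (lev e - 1) := by
        have : lev e + 1 = (lev e - 1) + 2 := by omega
        rw [this, pow_add]; norm_num; ring
      rw [h4] at h2
      refine h2.trans ?_
      rw [div_mul_eq_mul_div, le_div_iff₀ hlam]
      nlinarith
    have hfin : (l : ℝ) ≤ 4 * (x / lam) := by
      calc (l : ℝ) = ((univ : Finset (ZMod l)).card : ℝ) := by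
            rw [card_univ, ZMod.card]
        _ ≤ ((B.biUnion agree).card : ℝ) := by exact_mod_cast card_le_card hcov
        _ ≤ ((∑ e ∈ B, (agree e).card : ℕ) : ℝ) := by exact_mod_cast card_biUnion_le
        _ = ∑ e ∈ B, ((agree e).card : ℝ) := by push_cast; rfl
        _ ≤ ∑ e ∈ B, 4 / lam * Real.log e := sum_le_sum hag
        _ = 4 / lam * ∑ e ∈ B, Real.log e := by rw [mul_sum]
        _ ≤ 4 / lam * x := by
            apply mul_le_mul_of_nonneg_left _ (by positivity)
            exact sum_log_le hb (le_trans (by exact_mod_cast hbN) hN) B (filter_subset _ _)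
        _ = 4 * (x / lam) := by ring
    linarith

end Pool.Agent.helper63.DD
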