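import Mathlib
import Pool.Agent.helper18.DivLevels
import Pool.Agent.helper63.DD.Sorted

set_option autoImplicit false

/-!
Numerical part: chains with `t` elements, `O((1 + log log x / t) * (x / log x) ^ 2)` of them.
-/

namespace Pool.Agent.helper63.DD

open Finset Real
open Pool.Agent.helper18 (Sep sep_gv exists_dyadic log_le_two_sqrt sep_crude root_part_dvd
  sum_inv_sq_le)

lemma csep_main {x : ℝ} (hx : exp (exp 1) ≤ x) {N : ℕ} (hN : (N : ℝ) ≤ exp x) {m : ℕ}
    (hm : 1 ≤ m) :
    ∃ d : ℕ, CSep (m + 1) (fun _ => True) N d ∧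
      (d : ℝ) ≤ 300 * (1 + Real.log (Real.log x) / m) * (x / Real.log x) ^ 2 := by
  set lam : ℝ := Real.log x with hlamdef
  set T : ℝ := x / lam with hTdef
  have hm0 : (0 : ℝ) < m := by exact_mod_cast hm
  have hx0 : 0 < x := lt_of_lt_of_le (exp_pos _) hx
  have hlam1 : exp 1 ≤ lam := by
    rw [hlamdef, Real.le_log_iff_exp_le hx0]
    exact hx
  have he : (2.7 : ℝ) < exp 1 := by linarith [Real.exp_one_gt_d9]
  have hlam2 : (2.7 : ℝ) < lam := by linarith
  have hlam0 : 0 < lam := by linarith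
  have hloglam : 1 ≤ Real.log lam := by
    rw [Real.le_log_iff_exp_le hlam0]; exact hlam1
  have hexplam : exp lam = x := Real.exp_log hx0
  have hx1 : 1 ≤ x := by rw [← hexplam]; exact Real.one_le_exp hlam0.le
  have hT1 : 1 ≤ T := by
    rw [hTdef, one_le_div hlam0]
    have := Real.log_le_sub_one_of_pos hx0
    linarith
  have hT0 : 0 < T := by linarith
  -- the prime
  obtain ⟨l, hl, hl1, hl2⟩ := Nat.exists_prime_lt_and_le_two_mul ⌈4 * T⌉₊ (by
    apply Nat.ceil_pos.mpr _ |>.ne'
    linarith)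
  have h4T : 4 * T < l := lt_of_le_of_lt (Nat.le_ceil _) (by exact_mod_cast hl1)
  have hlT : (l : ℝ) ≤ 10 * T := by
    have h1 : (l : ℝ) ≤ 2 * ⌈4 * T⌉₊ := by exact_mod_cast hl2
    have h2 := (Nat.ceil_lt_add_one (a := 4 * T) (by linarith)).le
    linarith
  have hsize : exp lam + 1 ≤ (l : ℝ) ^ 2 := by
    rw [hexplam]
    have h1 : lam ^ 2 ≤ 4 * x := by
      have h2 := log_le_two_sqrt hx0
      have h3 : lam ^ 2 ≤ (2 * √x) ^ 2 := pow_le_pow_left₀ hlam0.le h2 2
      rw [mul_pow, Real.sq_sqrt hx0.le] at h3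
      linarith
    have h2 : x + 1 ≤ (4 * T) ^ 2 := by
      rw [hTdef, mul_pow, div_pow, ← mul_div_assoc, le_div_iff₀ (by positivity)]
      nlinarith
    calc x + 1 ≤ (4 * T) ^ 2 := h2
      _ ≤ (l : ℝ) ^ 2 := pow_le_pow_left₀ (by linarith) h4T.le 2
  -- the number of Reed-Solomon levels
  let j1 : ℕ := ⌊Real.log lam / Real.log 2⌋₊ + 1
  have hlog2 : (0.69 : ℝ) < Real.log 2 := by linarith [Real.log_two_gt_d9]
  have hlog2' : (0 : ℝ) < Real.log 2 := by linarith
  have hj1 : lam ≤ 2 ^ j1 := by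
    have h1 : Real.log lam / Real.log 2 < j1 := by
      simp only [j1]; push_cast
      exact Nat.lt_floor_add_one _
    rw [div_lt_iff₀ hlog2'] at h1
    calc lam = exp (Real.log lam) := (Real.exp_log hlam0).symm
      _ ≤ exp (j1 * Real.log 2) := Real.exp_le_exp.mpr h1.le
      _ = 2 ^ j1 := by rw [Real.exp_nat_mul, Real.exp_log (by norm_num)]
  have hj1' : (j1 : ℝ) ≤ 3 * Real.log lam := by
    simp only [j1]; push_cast
    have h1 := Nat.floor_le (a := Real.log lam / Real.log 2) (by positivity)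
    have h2 : Real.log lam / Real.log 2 ≤ 2 * Real.log lam := by
      rw [div_le_iff₀ hlog2']
      nlinarith
    linarith
  -- groups of `m` levels
  let G : ℕ := j1 / m + 1
  have hG1 : j1 ≤ G * m := by
    have h1 := Nat.div_add_mod j1 m
    have h2 := Nat.mod_lt j1 (show 0 < m by omega)
    simp only [G]
    calc j1 = m * (j1 / m) + j1 % m := h1.symm
      _ ≤ m * (j1 / m) + m := by omega
      _ = (j1 / m + 1) * m := by ring
  have hG2 : (G : ℝ) ≤ 1 + 3 * Real.log lam / m := by
    simp only [G]; push_cast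
    have h1 : ((j1 / m : ℕ) : ℝ) ≤ (j1 : ℝ) / m := Nat.cast_div_le
    have h2 : (j1 : ℝ) / m ≤ 3 * Real.log lam / m := by gcongr
    linarith
  choose g hg1 hg2 using fun j => sep_gv (N := N) j (x := x) (lam := lam) (by linarith) hN hx0.le
  let n1 : ℕ := ⌈T⌉₊
  have hrs : CSep (m + 1) (fun q => ∃ k < G, 2 ^ (k * m) * lam < Real.log q ∧
      Real.log q ≤ 2 ^ (k * m + m) * lam) N (∑ k ∈ range G, l * l) :=
    CSep.range (by omega) G (fun k _ => csep_rs (by omega) hlam0 hN hl h4T hsize)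
  have hgv : CSep (m + 1) (fun q => ∃ k < n1, 2 ^ (G * m + k) * lam < Real.log q ∧
      Real.log q ≤ 2 ^ (G * m + k + 1) * lam) N (∑ k ∈ range n1, g (G * m + k)) :=
    CSep.range (by omega) n1 (fun k _ => CSep.of_sep (by omega) (hg1 (G * m + k)))
  have hsm : CSep (m + 1) (fun q => q ≤ ⌊T ^ 2⌋₊) N (⌊T ^ 2⌋₊ + 1) :=
    CSep.of_sep (by omega) (Sep.small N ⌊T ^ 2⌋₊)
  have hsep := hsm.or (hrs.or hgv)
  refine ⟨_, hsep.imp ?_, ?_⟩
  · intro q hq hqN
    refine ⟨fun _ => ?_, fun _ => trivial⟩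
    rcases le_or_gt q ⌊T ^ 2⌋₊ with h | h
    · exact Or.inl h
    · right
      have hq0 : (0 : ℝ) < q := by exact_mod_cast hq.pos
      obtain ⟨j, hj, hj2, hj3⟩ : ∃ j < G * m + n1, 2 ^ j * lam < Real.log q ∧
          Real.log q ≤ 2 ^ (j + 1) * lam := by
        apply exists_dyadic
        · have h1 : T ^ 2 < q := (Nat.floor_lt (by positivity)).mp h
          have h2 : 2 * Real.log T < Real.log q := by
            have := Real.log_lt_log (by positivity) h1
            rwa [Real.log_pow] at this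
          have h3 : Real.log T = lam - Real.log lam := by
            rw [hTdef, Real.log_div hx0.ne' hlam0.ne']
          have h4 : 2 * Real.log lam ≤ lam := by
            have h5 : Real.log (√lam) ≤ √lam - 1 :=
              Real.log_le_sub_one_of_pos (Real.sqrt_pos.mpr hlam0)
            have h6 : Real.log (√lam) = Real.log lam / 2 := Real.log_sqrt hlam0.le
            have h7 : (√lam - 2) ^ 2 ≥ 0 := sq_nonneg _
            have h8 : √lam ^ 2 = lam := Real.sq_sqrt hlam0.le
            nlinarith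
          linarith
        · have h1 : (q : ℝ) ≤ exp x := le_trans (by exact_mod_cast hqN) hN
          rw [← Real.log_le_iff_le_exp hq0] at h1
          refine h1.trans ?_
          have h2 : T ≤ 2 ^ (G * m + n1) := by
            calc T ≤ n1 := Nat.le_ceil _
              _ ≤ 2 ^ n1 := by exact_mod_cast Nat.lt_two_pow_self.le
              _ ≤ 2 ^ (G * m + n1) := pow_le_pow_right₀ (by norm_num) (by omega)
          calc x = T * lam := by rw [hTdef]; field_simp
            _ ≤ _ := by gcongr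
      rcases lt_or_ge j (G * m) with hlt | hge
      · left
        refine ⟨j / m, ?_, ?_, ?_⟩
        · exact Nat.div_lt_of_lt_mul (by rwa [mul_comm] at hlt)
        · refine lt_of_le_of_lt ?_ hj2
          apply mul_le_mul_of_nonneg_right _ hlam0.le
          exact pow_le_pow_right₀ (by norm_num) (Nat.div_mul_le_self j m)
        · refine hj3.trans ?_
          apply mul_le_mul_of_nonneg_right _ hlam0.le
          apply pow_le_pow_right₀ (by norm_num)
          have h1 := Nat.div_add_mod j m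
          have h2 := Nat.mod_lt j (show 0 < m by omega)
          have h3 : m * (j / m) = j / m * m := mul_comm _ _
          omega
      · right
        refine ⟨j - G * m, by omega, ?_, ?_⟩
        · rwa [show G * m + (j - G * m) = j by omega]
        · rwa [show G * m + (j - G * m) = j by omega]
  · push_cast
    have h1 : ∑ k ∈ range G, ((l : ℝ) * l) ≤ (1 + 3 * Real.log lam / m) * (100 * T ^ 2) := by
      calc ∑ k ∈ range G, ((l : ℝ) * l) = G * (l * l) := by simp
        _ ≤ (1 + 3 * Real.log lam / m) * ((10 * T) * (10 * T)) := by gcongr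
        _ = _ := by ring
    have h2 : ∑ k ∈ range n1, (g (G * m + k) : ℝ) ≤ 60 * T ^ 2 := by
      calc ∑ k ∈ range n1, (g (G * m + k) : ℝ)
          ≤ ∑ k ∈ range n1, 30 * T ^ 2 * (1 / 2) ^ k := by
            refine sum_le_sum fun k _ => ?_
            refine (hg2 (G * m + k)).trans ?_
            rw [pow_add, div_le_iff₀ (by positivity)]
            have h3 : (1 / 2 : ℝ) ^ k * 2 ^ k = 1 := by
              rw [← mul_pow]; norm_num
            have h4 : lam ≤ 2 ^ (G * m) :=
              hj1.trans (pow_le_pow_right₀ (by norm_num) hG1)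
            calc 30 * T ^ 2 * lam ≤ 30 * T ^ 2 * 2 ^ (G * m) := by gcongr
              _ = 30 * T ^ 2 * 2 ^ (G * m) * ((1 / 2 : ℝ) ^ k * 2 ^ k) := by rw [h3, mul_one]
              _ = _ := by ring
        _ = 30 * T ^ 2 * ∑ k ∈ range n1, (1 / 2 : ℝ) ^ k := by rw [mul_sum]
        _ ≤ 30 * T ^ 2 * 2 := by
            gcongr
            exact sum_geometric_two_le n1
        _ = _ := by ring
    have h3 : (⌊T ^ 2⌋₊ : ℝ) ≤ T ^ 2 := Nat.floor_le (by positivity)
    have h4 : 1 ≤ T ^ 2 := one_le_pow₀ hT1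
    have h5 : 300 * (1 + Real.log lam / m) * T ^ 2 =
        300 * T ^ 2 + 300 * (Real.log lam / m * T ^ 2) := by ring
    have h6 : (1 + 3 * Real.log lam / m) * (100 * T ^ 2) =
        100 * T ^ 2 + 300 * (Real.log lam / m * T ^ 2) := by ring
    rw [h5]
    rw [h6] at h1
    linarith

/-- From separating systems for primes to chain representations of divisibility. -/
lemma exists_chain_repr (n L t : ℕ) (ht : 0 < t) (hL : ∀ k, 2 ^ k ≤ n → k ≤ L) (N d : ℕ → ℕ)
    (hN : ∀ i < L, ∀ m, m ^ (i + 1) ≤ n → m ≤ N i)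
    (hsep : ∀ i < L, CSep t (fun _ => True) (N i) (d i)) :
    ∃ (V : Type) (_ : Fintype V) (f : ℕ → V → Fin t), Fintype.card V ≤ ∑ i ∈ range L, d i ∧
      ∀ a b, 1 ≤ a → a ≤ n → 1 ≤ b → b ≤ n → (f a ≤ f b ↔ a ∣ b) := by
  classical
  have hsep' : ∀ i : Fin L, CSep t (fun _ => True) (N i) (d i) := fun i => hsep i i.2
  choose V iV h hcard ht' hS using hsep'
  let F : ℕ → (Σ i : Fin L, V i) → ℕ := fun b v =>
    (b.primeFactors.filter (fun q => q ^ (v.1.val + 1) ∣ b)).sup (fun q => h v.1 q v.2)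
  have hFt : ∀ b v, F b v < t := by
    intro b v
    simp only [F]
    rw [Finset.sup_lt_iff (by simpa using ht)]
    intro q _
    exact ht' v.1 q v.2
  refine ⟨Σ i : Fin L, V i, inferInstance, fun b v => ⟨F b v, hFt b v⟩, ?_, ?_⟩
  · rw [Fintype.card_sigma, Finset.sum_range]
    exact sum_le_sum fun i _ => hcard i
  · intro a b ha han hb hbn
    rw [Pi.le_def]
    simp only [Fin.mk_le_mk]
    constructor
    · intro hsub
      rw [Nat.dvd_iff_prime_pow_dvd_dvd]
      intro p k hp hpk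
      by_contra hcon
      have hk : k ≠ 0 := by
        rintro rfl
        simp at hcon
      obtain ⟨i, rfl⟩ := Nat.exists_eq_succ_of_ne_zero hk
      rw [Nat.succ_eq_add_one] at *
      have hple : p ^ (i + 1) ≤ a := Nat.le_of_dvd ha hpk
      have hiL : i < L := by
        have : 2 ^ (i + 1) ≤ n :=
          (Nat.pow_le_pow_left hp.two_le _).trans (hple.trans han)
        have := hL _ this
        omega
      set b' : ℕ := ∏ q ∈ b.primeFactors.filter (fun q => q ^ (i + 1) ∣ b), q with hb'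
      have hb'0 : b' ≠ 0 := by
        rw [hb']
        apply prod_ne_zero_iff.mpr
        intro q hq
        exact (Nat.prime_of_mem_primeFactors (mem_filter.mp hq).1).ne_zero
      have hb'N : b' ≤ N i := by
        apply hN i hiL
        exact (Nat.le_of_dvd hb (root_part_dvd b (i + 1))).trans hbn
      have hpb' : ¬ p ∣ b' := by
        intro h
        rw [hb', Prime.dvd_finsetProd_iff (Nat.prime_iff.mp hp)] at h
        obtain ⟨q, hq, hpq⟩ := h
        have hq1 := (mem_filter.mp hq).1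
        have hq2 := (mem_filter.mp hq).2
        rw [(Nat.prime_dvd_prime_iff_eq hp (Nat.prime_of_mem_primeFactors hq1))] at hpq
        exact hcon (hpq ▸ hq2)
      obtain ⟨v, hv, hv'⟩ := hS ⟨i, hiL⟩ p b' trivial hp
        (hN i hiL p (hple.trans han)) hb'0 hb'N hpb'
      have h1 := hsub ⟨⟨i, hiL⟩, v⟩
      have h2 : h ⟨i, hiL⟩ p v ≤ F a ⟨⟨i, hiL⟩, v⟩ := by
        simp only [F]
        apply Finset.le_sup (f := fun q => h ⟨i, hiL⟩ q v)
        rw [mem_filter, Nat.mem_primeFactors]
        exact ⟨⟨hp, (dvd_pow_self p (by omega)).trans hpk, by omega⟩, hpk⟩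
      have h3 : F b ⟨⟨i, hiL⟩, v⟩ < h ⟨i, hiL⟩ p v := by
        simp only [F]
        rw [Finset.sup_lt_iff (by simpa using hv)]
        intro q hq
        apply hv' q _ trivial
        rw [Nat.mem_primeFactors]
        refine ⟨Nat.prime_of_mem_primeFactors (mem_filter.mp hq).1, ?_, hb'0⟩
        rw [hb']
        exact dvd_prod_of_mem (fun q => q) hq
      omega
    · rintro hdvd ⟨i, v⟩
      simp only [F]
      apply Finset.sup_mono
      intro q hq
      rw [mem_filter, Nat.mem_primeFactors] at hq ⊢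
      exact ⟨⟨hq.1.1, hq.1.2.1.trans hdvd, by omega⟩, hq.2.trans hdvd⟩

/-- The cost of one exponent. -/
lemma level_cost {X Y : ℝ} (hXY : X = Y ^ 4) (hY : exp (exp 1) ≤ Y) (i : ℕ) {m : ℕ}
    (hm : 1 ≤ m) :
    ∃ d : ℕ, CSep (m + 1) (fun _ => True) ⌊exp (X / ((i : ℝ) + 1))⌋₊ d ∧
      (d : ℝ) ≤ 4800 * (1 + Real.log (Real.log X) / m) * (X / Real.log X) ^ 2 *
        (1 / ((i : ℝ) + 1) ^ 2) + 162 * Y ^ 3 := by
  have hm0 : (0 : ℝ) < m := by exact_mod_cast hm
  have hee : (2.7 : ℝ) < exp 1 := by linarith [Real.exp_one_gt_d9]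
  have hY2 : (2.7 : ℝ) < Y := by
    have : exp 1 + 1 ≤ exp (exp 1) := Real.add_one_le_exp _
    linarith
  have hY0 : 0 < Y := by linarith
  have hX0 : 0 < X := by rw [hXY]; positivity
  have hi0 : (0 : ℝ) < (i : ℝ) + 1 := by positivity
  have hlogY : exp 1 ≤ Real.log Y := by
    rw [Real.le_log_iff_exp_le hY0]; exact hY
  have hlogX : Real.log X = 4 * Real.log Y := by
    rw [hXY, Real.log_pow]; norm_num
  have hlogX0 : 0 < Real.log X := by rw [hlogX]; linarith
  have hll : 0 < Real.log (Real.log X) := by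
    apply Real.log_pos; rw [hlogX]; linarith
  rcases le_or_gt Y (X / ((i : ℝ) + 1)) with h | h
  · obtain ⟨d, hd1, hd2⟩ := csep_main (x := X / ((i : ℝ) + 1)) (hY.trans h)
      (N := ⌊exp (X / ((i : ℝ) + 1))⌋₊) (Nat.floor_le (exp_pos _).le) hm
    refine ⟨d, hd1, hd2.trans ?_⟩
    set z : ℝ := X / ((i : ℝ) + 1) with hz
    have hz0 : 0 < z := by positivity
    have hzX : z ≤ X := by
      rw [hz]
      apply div_le_self hX0.le
      linarith [Nat.cast_nonneg (α := ℝ) i]
    have h1 : Real.log X / 4 ≤ Real.log z := by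
      rw [hlogX]
      have := Real.log_le_log hY0 h
      linarith
    have h2 : Real.log z ≤ Real.log X := Real.log_le_log hz0 hzX
    have h3 : Real.log (Real.log z) ≤ Real.log (Real.log X) :=
      Real.log_le_log (by linarith) h2
    have h3' : 0 ≤ Real.log (Real.log z) := by
      apply Real.log_nonneg
      have := Real.log_le_log hY0 h
      linarith
    have h4 : z / Real.log z ≤ 4 * (X / Real.log X) * (1 / ((i : ℝ) + 1)) := by
      have h5 : z / Real.log z ≤ z / (Real.log X / 4) := by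
        apply div_le_div_of_nonneg_left hz0.le (by linarith) h1
      refine h5.trans (le_of_eq ?_)
      rw [hz]
      field_simp
    have h6 : 0 ≤ z / Real.log z := div_nonneg hz0.le (by linarith)
    calc 300 * (1 + Real.log (Real.log z) / m) * (z / Real.log z) ^ 2
        ≤ 300 * (1 + Real.log (Real.log X) / m) *
            (4 * (X / Real.log X) * (1 / ((i : ℝ) + 1))) ^ 2 := by
          gcongr
      _ = 4800 * (1 + Real.log (Real.log X) / m) * (X / Real.log X) ^ 2 *
            (1 / ((i : ℝ) + 1) ^ 2) := by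
          field_simp; ring
      _ ≤ _ := by
          have : 0 ≤ 162 * Y ^ 3 := by positivity
          linarith
  · refine ⟨_, CSep.of_sep (by omega) (sep_crude _), ?_⟩
    have hlog2 : (0.69 : ℝ) < Real.log 2 := by linarith [Real.log_two_gt_d9]
    have hlog2' : (0 : ℝ) < Real.log 2 := by linarith
    set z : ℝ := X / ((i : ℝ) + 1) with hz
    have hz0 : 0 < z := by positivity
    have h1 : (Nat.log 2 ⌊exp z⌋₊ : ℝ) ≤ z / Real.log 2 := by
      have hfl : ⌊exp z⌋₊ ≠ 0 := by
        have : 1 ≤ ⌊exp z⌋₊ := Nat.le_floor (by simpa using Real.one_le_exp hz0.le)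
        omega
      have h2 := Nat.pow_log_le_self 2 hfl
      have h3 : ((2 : ℝ) ^ (Nat.log 2 ⌊exp z⌋₊)) ≤ exp z := by
        calc ((2 : ℝ) ^ (Nat.log 2 ⌊exp z⌋₊)) ≤ (⌊exp z⌋₊ : ℝ) := by exact_mod_cast h2
          _ ≤ exp z := Nat.floor_le (exp_pos _).le
      rw [le_div_iff₀ hlog2']
      have h4 := Real.log_le_log (by positivity) h3
      rwa [Real.log_pow, Real.log_exp] at h4
    have h5 : z / Real.log 2 + 1 ≤ 3 * Y := by
      have : z / Real.log 2 ≤ Y / 0.69 := by gcongr
      have h6 : Y / 0.69 ≤ 1.5 * Y := by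
        rw [div_le_iff₀ (by norm_num)]; linarith
      linarith
    push_cast
    have h6 : (Nat.log 2 ⌊exp z⌋₊ : ℝ) + 1 ≤ 3 * Y := by linarith
    have h7 : 0 ≤ 4800 * (1 + Real.log (Real.log X) / m) * (X / Real.log X) ^ 2 *
        (1 / ((i : ℝ) + 1) ^ 2) := by positivity
    calc 6 * ((Nat.log 2 ⌊exp z⌋₊ : ℝ) + 1) ^ 3 ≤ 6 * (3 * Y) ^ 3 := by gcongr
      _ = 162 * Y ^ 3 := by ring
      _ ≤ _ := by linarith

/-- Representation of the divisibility order on `[n]` by chains with `m + 1` elements. -/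
lemma upper_chains {n : ℕ} {Y : ℝ} (hn : Real.log n = Y ^ 4) (hY : exp (exp 1) ≤ Y)
    (hY2 : 62208 ^ 2 ≤ Y) {m : ℕ} (hm : 1 ≤ m) :
    ∃ (V : Type) (_ : Fintype V) (f : ℕ → V → Fin (m + 1)),
      (Fintype.card V : ℝ) ≤ 9601 * (1 + Real.log (Real.log (Real.log n)) / m) *
        (Real.log n / Real.log (Real.log n)) ^ 2 ∧
      ∀ a b, 1 ≤ a → a ≤ n → 1 ≤ b → b ≤ n → (f a ≤ f b ↔ a ∣ b) := by
  set X : ℝ := Real.log n with hX
  have hm0 : (0 : ℝ) < m := by exact_mod_cast hm
  have hee : (2.7 : ℝ) < exp 1 := by linarith [Real.exp_one_gt_d9]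
  have hY0 : 0 < Y := by linarith
  have hX0 : 0 < X := by rw [hn]; positivity
  have hn0 : n ≠ 0 := by
    rintro rfl
    simp at hX
    linarith
  have hnpos : (0 : ℝ) < n := by positivity
  have hlog2 : (0.69 : ℝ) < Real.log 2 := by linarith [Real.log_two_gt_d9]
  have hlog2' : (0 : ℝ) < Real.log 2 := by linarith
  have hlogY : exp 1 ≤ Real.log Y := by
    rw [Real.le_log_iff_exp_le hY0]; exact hY
  have hlogX : Real.log X = 4 * Real.log Y := by
    rw [hn, Real.log_pow]; norm_num
  have hlogX0 : 0 < Real.log X := by rw [hlogX]; linarith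
  have hll : 1 ≤ Real.log (Real.log X) := by
    rw [Real.le_log_iff_exp_le hlogX0, hlogX]; linarith
  let L : ℕ := Nat.log 2 n
  have hLX : (L : ℝ) * Real.log 2 ≤ X := by
    have h2 := Nat.pow_log_le_self 2 hn0
    have h3 : ((2 : ℝ) ^ (Nat.log 2 n)) ≤ n := by exact_mod_cast h2
    have h4 := Real.log_le_log (by positivity) h3
    rwa [Real.log_pow] at h4
  choose d hd1 hd2 using fun i : ℕ => level_cost hn hY i hm
  obtain ⟨V, iV, f, hV, hf⟩ := exists_chain_repr n L (m + 1) (by omega)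
    (fun k hk => Nat.le_log_of_pow_le (by norm_num) hk)
    (fun i => ⌊exp (X / ((i : ℝ) + 1))⌋₊) d (by
      intro i hi m hm
      rcases Nat.eq_zero_or_pos m with rfl | hm0
      · exact Nat.zero_le _
      · apply Nat.le_floor
        have hm0' : (0 : ℝ) < m := by exact_mod_cast hm0
        rw [← Real.log_le_iff_le_exp hm0', le_div_iff₀ (by positivity)]
        have h1 : ((m : ℝ) ^ (i + 1)) ≤ n := by exact_mod_cast hm
        have h2 := Real.log_le_log (by positivity) h1
        rw [Real.log_pow] at h2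
        push_cast at h2
        linarith) (fun i _ => hd1 i)
  refine ⟨V, iV, f, ?_, hf⟩
  have h1 : (Fintype.card V : ℝ) ≤ ∑ i ∈ range L, (d i : ℝ) := by exact_mod_cast hV
  have h2 : ∑ i ∈ range L, (d i : ℝ) ≤ ∑ i ∈ range L,
      (4800 * (1 + Real.log (Real.log X) / m) * (X / Real.log X) ^ 2 * (1 / ((i : ℝ) + 1) ^ 2)
        + 162 * Y ^ 3) :=
    sum_le_sum fun i _ => hd2 i
  have h3 : ∑ i ∈ range L,
      (4800 * (1 + Real.log (Real.log X) / m) * (X / Real.log X) ^ 2 * (1 / ((i : ℝ) + 1) ^ 2)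
        + 162 * Y ^ 3) ≤ 9600 * (1 + Real.log (Real.log X) / m) * (X / Real.log X) ^ 2
        + L * (162 * Y ^ 3) := by
    rw [sum_add_distrib, ← mul_sum]
    have := sum_inv_sq_le L
    have h4 : 0 ≤ 4800 * (1 + Real.log (Real.log X) / m) * (X / Real.log X) ^ 2 := by positivity
    have h5 := mul_le_mul_of_nonneg_left this h4
    simp only [sum_const, card_range, nsmul_eq_mul]
    linarith
  have h4 : (L : ℝ) * (162 * Y ^ 3) ≤ (X / Real.log X) ^ 2 := by
    have h5 : (L : ℝ) ≤ 1.5 * X := by nlinarith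
    have h6 : Real.log Y ≤ 4 * √(√Y) := by
      have h7 : Real.log (√Y) ≤ 2 * √(√Y) := log_le_two_sqrt (Real.sqrt_pos.mpr hY0)
      rw [Real.log_sqrt hY0.le] at h7
      linarith
    have h8 : Real.log X ^ 2 ≤ 256 * √Y := by
      rw [hlogX]
      have h9 : (4 * Real.log Y) ^ 2 ≤ (4 * (4 * √(√Y))) ^ 2 := by
        apply pow_le_pow_left₀ (by linarith)
        linarith
      refine h9.trans (le_of_eq ?_)
      rw [mul_pow, mul_pow, Real.sq_sqrt (Real.sqrt_nonneg _)]
      ring
    have h10 : (62208 : ℝ) ≤ √Y := by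
      rw [show (62208 : ℝ) = √(62208 ^ 2) by rw [Real.sqrt_sq (by norm_num)]]
      exact Real.sqrt_le_sqrt hY2
    have h11 : √Y * √Y = Y := Real.mul_self_sqrt hY0.le
    rw [div_pow, le_div_iff₀ (by positivity)]
    have hs0 : 0 ≤ √Y := Real.sqrt_nonneg _
    calc (L : ℝ) * (162 * Y ^ 3) * Real.log X ^ 2 ≤ (1.5 * X) * (162 * Y ^ 3) * (256 * √Y) := by
          gcongr
      _ = Y ^ 7 * (62208 * √Y) := by rw [hn]; ring
      _ ≤ Y ^ 7 * (√Y * √Y) := by gcongr
      _ = X ^ 2 := by rw [h11, hn]; ring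
  have h5 : (X / Real.log X) ^ 2 ≤ (1 + Real.log (Real.log X) / m) * (X / Real.log X) ^ 2 := by
    apply le_mul_of_one_le_left (by positivity)
    have : 0 ≤ Real.log (Real.log X) / m := by positivity
    linarith
  linarith

end Pool.Agent.helper63.DD
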