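import Mathlib
import Pool.Agent.helper18.DivLower
import Pool.Agent.helper63.DD.Main

set_option autoImplicit false

/-!
Numerical set-up shared by the final theorems.
-/

namespace Pool.Agent.helper63.DD

open Filter Real

/-- Everything needed about a large `n`, in one statement. -/
lemma eventually_good : ∀ᶠ n : ℕ in atTop, 1 ≤ n ∧ (1 : ℝ) ≤ Real.log (Real.log (Real.log n)) ∧
    (∀ m : ℕ, 1 ≤ m → ∃ (V : Type) (_ : Fintype V) (f : ℕ → V → Fin (m + 1)),
      (Fintype.card V : ℝ) ≤ 9601 * (1 + Real.log (Real.log (Real.log n)) / m) *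
        (Real.log n / Real.log (Real.log n)) ^ 2 ∧
      ∀ a b, 1 ≤ a → a ≤ n → 1 ≤ b → b ≤ n → (f a ≤ f b ↔ a ∣ b)) ∧
    (∀ (d : ℕ) (C : Fin d → Type) (_ : ∀ i, LinearOrder (C i)) (f : ℕ → ∀ i, C i),
      (∀ a b, 1 ≤ a → a ≤ n → 1 ≤ b → b ≤ n → (f a ≤ f b ↔ a ∣ b)) →
      (1 / 72) * (Real.log n / Real.log (Real.log n)) ^ 2 ≤ d) := by
  have hev : ∀ᶠ n : ℕ in atTop, (max (exp (exp (exp 1))) (62208 ^ 2)) ^ 4 ≤ Real.log n :=
    (Real.tendsto_log_atTop.comp tendsto_natCast_atTop_atTop).eventually_ge_atTop _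
  filter_upwards [hev, eventually_ge_atTop 1] with n hn hn1
  set M : ℝ := max (exp (exp (exp 1))) (62208 ^ 2) with hM
  have hM1 : exp (exp (exp 1)) ≤ M := le_max_left _ _
  have hM2 : 62208 ^ 2 ≤ M := le_max_right _ _
  have hM0 : 0 < M := lt_of_lt_of_le (exp_pos _) hM1
  have hee : exp (exp 1) ≤ exp (exp (exp 1)) := by
    apply Real.exp_le_exp.mpr
    have := Real.add_one_le_exp (exp 1)
    linarith
  set X : ℝ := Real.log n with hX
  have hX0 : 0 < X := lt_of_lt_of_le (by positivity) hn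
  let Y : ℝ := √(√X)
  have hY4 : X = Y ^ 4 := by
    have : Y ^ 4 = (Y ^ 2) ^ 2 := by ring
    rw [this, Real.sq_sqrt (Real.sqrt_nonneg _), Real.sq_sqrt hX0.le]
  have hMY : M ≤ Y := by
    rw [hY4] at hn
    exact le_of_pow_le_pow_left₀ (by norm_num) (Real.sqrt_nonneg _) hn
  have hM1' : (1 : ℝ) ≤ M := by linarith
  have hMX : M ≤ X := (le_self_pow₀ hM1' (by norm_num)).trans hn
  have hM4 : (62208 ^ 2 : ℝ) ≤ X := hM2.trans hMX
  have hlamle : Real.log X ≤ 2 * √X := Pool.Agent.helper18.log_le_two_sqrt hX0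
  have hsq : (62208 : ℝ) ≤ √X := by
    rw [show (62208 : ℝ) = √(62208 ^ 2) by rw [Real.sqrt_sq (by norm_num)]]
    exact Real.sqrt_le_sqrt hM4
  have hsq2 : √X * √X = X := Real.mul_self_sqrt hX0.le
  have hbig : 6000 * Real.log X ≤ X := by nlinarith
  have hll2 : exp (exp 1) ≤ Real.log X := by
    rw [Real.le_log_iff_exp_le hX0]
    exact hM1.trans hMX
  have hlX0 : 0 < Real.log X := lt_of_lt_of_le (exp_pos _) hll2
  have hll1 : exp 1 ≤ Real.log (Real.log X) := by
    rw [Real.le_log_iff_exp_le hlX0]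
    exact hll2
  have hlam2 : 2 ≤ Real.log X := by
    have := Real.add_one_le_exp (exp 1)
    linarith [Real.exp_one_gt_d9]
  refine ⟨hn1, by linarith [Real.exp_one_gt_d9], ?_, ?_⟩
  · intro m hm
    exact upper_chains (n := n) (Y := Y) hY4 (hee.trans (hM1.trans hMY)) (hM2.trans hMY) hm
  · intro d C iC f hf
    exact Pool.Agent.helper18.lower_repr (n := n) (lam := Real.log X) rfl hlam2 hbig f hf

end Pool.Agent.helper63.DD
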