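import Pool.Agent.helper12.DD.Spec

/-!
# Project dd: module OMP: central characters of a product are multiplicative
-/

set_option autoImplicit false

open Pool.Agent.helper49.Blk

namespace Pool.Agent.DD

theorem OMP_conj {A B : Type} [Group A] [Group B] (a x : A) (b y : B) :
    IsConj (a, b) (x, y) ↔ IsConj a x ∧ IsConj b y := by
  rw [isConj_iff, isConj_iff, isConj_iff]
  constructor
  · rintro ⟨c, hc⟩
    rw [Prod.ext_iff] at hc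
    exact ⟨⟨c.1, hc.1⟩, ⟨c.2, hc.2⟩⟩
  · rintro ⟨⟨c, hc⟩, ⟨d, hd⟩⟩
    exact ⟨(c, d), Prod.ext hc hd⟩

theorem OMP_card {A B : Type} [Group A] [Group B] (a : A) (b : B) :
    Nat.card (conjugatesOf (a, b)) = Nat.card (conjugatesOf a) * Nat.card (conjugatesOf b) := by
  have h : conjugatesOf (a, b) = conjugatesOf a ×ˢ conjugatesOf b := by
    ext z
    obtain ⟨x, y⟩ := z
    exact OMP_conj a x b y
  rw [h, Nat.card_congr (Equiv.Set.prod _ _), Nat.card_prod]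

theorem OMP_sum {A B : Type} [Group A] [Group B] [Finite A] [Finite B] (a : A) (b : B)
    (N₁ : Subgroup A) (N₂ : Subgroup B) (ψ₁ : N₁ → ℂ) (ψ₂ : N₂ → ℂ) :
    (∑ᶠ x ∈ {x : ↥(N₁.prod N₂) | IsConj (a, b) (x : A × B)}, ots N₁ N₂ ψ₁ ψ₂ x) =
      (∑ᶠ x ∈ {x : N₁ | IsConj a (x : A)}, ψ₁ x) * ∑ᶠ x ∈ {x : N₂ | IsConj b (x : B)}, ψ₂ x := by
  classical
  have := Fintype.ofFinite ↥(N₁.prod N₂)
  have := Fintype.ofFinite ↥N₁
  have := Fintype.ofFinite ↥N₂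
  rw [finsum_mem_def, finsum_mem_def, finsum_mem_def, finsum_eq_sum_of_fintype,
    finsum_eq_sum_of_fintype, finsum_eq_sum_of_fintype, Finset.sum_mul_sum, ← Finset.sum_product',
    Finset.univ_product_univ]
  refine Fintype.sum_equiv (Subgroup.prodEquiv N₁ N₂).toEquiv _ _ fun x => ?_
  obtain ⟨⟨x, y⟩, hx, hy⟩ := x
  have e : (Subgroup.prodEquiv N₁ N₂).toEquiv ⟨(x, y), hx, hy⟩ = (⟨x, hx⟩, ⟨y, hy⟩) := rfl
  rw [e]
  have h := OMP_conj a x b y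
  simp only [Set.indicator_apply, Set.mem_ofPred_eq, ots]
  by_cases h1 : IsConj a x
  · by_cases h2 : IsConj b y
    · rw [if_pos (h.2 ⟨h1, h2⟩), if_pos h1, if_pos h2]
    · rw [if_neg (fun h3 => h2 (h.1 h3).2), if_neg h2, mul_zero]
  · rw [if_neg (fun h3 => h1 (h.1 h3).1), if_neg h1, zero_mul]

theorem OMP : OMP_stmt := by
  intro A B _ _ _ _ a b
  refine ⟨fun χ₁ χ₂ => ?_, fun N₁ N₂ ψ₁ ψ₂ => ?_⟩
  · unfold omega
    rw [OMP_card]
    have h1 : ot χ₁ χ₂ (a, b) = χ₁ a * χ₂ b := rfl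
    have h2 : ot χ₁ χ₂ 1 = χ₁ 1 * χ₂ 1 := rfl
    rw [h1, h2, Nat.cast_mul, mul_mul_mul_comm, mul_div_mul_comm]
  · unfold omInd
    rw [OMP_sum]
    have h2 : ots N₁ N₂ ψ₁ ψ₂ 1 = ψ₁ 1 * ψ₂ 1 := rfl
    rw [h2, mul_div_mul_comm]

end Pool.Agent.DD
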